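import Mathlib

/-!
# Counting two-colourings reversed by some group element

`G` is a finite group acting on a finite set `E`.  We count the maps `c : E → Bool` for which some
`g : G` satisfies `c (g • e) = !c e` for all `e`.
-/

set_option autoImplicit false

open Finset

namespace Pool.Agent.H230R2.SC

variable {E G : Type} [Group G] [MulAction G E] {k : ℕ}

/-- one step of the relation on `E` generated by the permutations `σ 0, …, σ (k-1)` -/
def Step (σ : Fin k → G) (e e' : E) : Prop := ∃ i, e' = σ i • e

/-- one step on `E × Bool`: apply some `σ i` and flip the bit -/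
def SStep (σ : Fin k → G) (a a' : E × Bool) : Prop := ∃ i, a' = (σ i • a.1, !a.2)

/-- no `e` can be connected to itself by an odd number of steps: `(e, false)` and `(e, true)` lie in
different classes of the equivalence relation generated by `SStep σ` -/
def Compat (E : Type) [MulAction G E] (σ : Fin k → G) : Prop :=
  ∀ e : E, Quot.mk (SStep σ) (e, false) ≠ Quot.mk (SStep σ) (e, true)

open Classical in
/-- the weight of a tuple: `2 ^ (number of orbits)` or `0` -/
noncomputable def wt (E : Type) [MulAction G E] (σ : Fin k → G) : ℕ :=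
  if Compat E σ then 2 ^ Nat.card (Quot (Step (E := E) σ)) else 0

/-- colourings reversed by all the `σ i` -/
def Rev (E : Type) [MulAction G E] (σ : Fin k → G) : Type :=
  {c : E → Bool // ∀ i e, c (σ i • e) = !c e}

theorem flip_eq (σ : Fin k → G) {e e' : E} {b b' : Bool}
    (h : Quot.mk (SStep σ) (e, b) = Quot.mk (SStep σ) (e', b')) :
    Quot.mk (SStep σ) (e, !b) = Quot.mk (SStep σ) (e', !b') := by
  have hw : ∀ a a' : E × Bool, SStep σ a a' →
      Quot.mk (SStep σ) (a.1, !a.2) = Quot.mk (SStep σ) (a'.1, !a'.2) := by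
    rintro ⟨x, u⟩ a' ⟨i, rfl⟩
    apply Quot.sound
    exact ⟨i, rfl⟩
  exact congrArg (Quot.lift (fun a : E × Bool => Quot.mk (SStep σ) (a.1, !a.2)) hw) h

theorem rev_nonempty_compat (σ : Fin k → G) (c : Rev E σ) : Compat E σ := by
  intro e h
  have hw : ∀ a a' : E × Bool, SStep σ a a' → xor (c.1 a.1) a.2 = xor (c.1 a'.1) a'.2 := by
    rintro ⟨x, u⟩ a' ⟨i, rfl⟩
    simp only [c.2 i x]
    cases c.1 x <;> cases u <;> rfl
  have := congrArg (Quot.lift (fun a : E × Bool => xor (c.1 a.1) a.2) hw) h
  simp at this

theorem dich (σ : Fin k → G) {e e' : E} (h : Quot.mk (Step σ) e = Quot.mk (Step σ) e') :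
    Quot.mk (SStep σ) (e, false) = Quot.mk (SStep σ) (e', false) ∨
    Quot.mk (SStep σ) (e, false) = Quot.mk (SStep σ) (e', true) := by
  have h' := Quot.eqvGen_exact h
  induction h' with
  | rel x y hxy =>
    right
    obtain ⟨i, rfl⟩ := hxy
    apply Quot.sound
    exact ⟨i, rfl⟩
  | refl x => left; rfl
  | symm x y hxy ih =>
    rcases ih (Quot.eqvGen_sound hxy) with h1 | h1
    · left; exact h1.symm
    · right
      have := flip_eq σ h1
      simpa using this.symm
  | trans x y z hxy hyz ih1 ih2 =>
    rcases ih1 (Quot.eqvGen_sound hxy) with h1 | h1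
    · rcases ih2 (Quot.eqvGen_sound hyz) with h2 | h2
      · left; exact h1.trans h2
      · right; exact h1.trans h2
    · rcases ih2 (Quot.eqvGen_sound hyz) with h2 | h2
      · right
        have := flip_eq σ h2
        exact h1.trans (by simpa using this)
      · left
        have := flip_eq σ h2
        exact h1.trans (by simpa using this)

open Classical in
theorem exists_rev (σ : Fin k → G) (hc : Compat E σ) : Nonempty (Rev E σ) := by
  let r : E → E := fun e => Quot.out (Quot.mk (Step σ) e)
  have hr : ∀ e, Quot.mk (Step σ) e = Quot.mk (Step σ) (r e) := fun e => (Quot.out_eq _).symm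
  refine ⟨⟨fun e => if Quot.mk (SStep σ) (e, false) = Quot.mk (SStep σ) (r e, false)
    then false else true, ?_⟩⟩
  intro i e
  have hq : Quot.mk (Step σ) e = Quot.mk (Step σ) (σ i • e) := Quot.sound ⟨i, rfl⟩
  have hre : r (σ i • e) = r e := by simp only [r, hq]
  have hs : Quot.mk (SStep σ) (e, false) = Quot.mk (SStep σ) (σ i • e, true) := Quot.sound ⟨i, rfl⟩
  have hd := dich σ (hr e)
  have hc' := hc (r e)
  beta_reduce
  rw [hre]
  by_cases h1 : Quot.mk (SStep σ) (e, false) = Quot.mk (SStep σ) (r e, false)
  · have h2 : ¬ Quot.mk (SStep σ) (σ i • e, false) = Quot.mk (SStep σ) (r e, false) := by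
      intro h3
      have h4 := flip_eq σ h3
      simp only [Bool.not_false] at h4
      rw [← hs, h1] at h4
      exact hc' h4
    simp [h1, h2]
  · have h5 : Quot.mk (SStep σ) (e, false) = Quot.mk (SStep σ) (r e, true) := hd.resolve_left h1
    have h2 : Quot.mk (SStep σ) (σ i • e, false) = Quot.mk (SStep σ) (r e, false) := by
      have h6 := hs.symm.trans h5
      have h7 := flip_eq σ h6
      simpa using h7
    simp [h1, h2]

theorem card_rev [Finite E] (σ : Fin k → G) : Nat.card (Rev E σ) = wt E σ := by
  classical
  unfold wt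
  split_ifs with hc
  · obtain ⟨c0⟩ := exists_rev σ hc
    have e : Rev E σ ≃ (Quot (Step (E := E) σ) → Bool) :=
      { toFun := fun c => Quot.lift (fun e => xor (c.1 e) (c0.1 e)) (by
          rintro x y ⟨i, rfl⟩
          simp only [c.2 i x, c0.2 i x]
          cases c.1 x <;> cases c0.1 x <;> rfl)
        invFun := fun f => ⟨fun e => xor (f (Quot.mk _ e)) (c0.1 e), by
          intro i e
          have : Quot.mk (Step σ) (σ i • e) = Quot.mk (Step σ) e := (Quot.sound ⟨i, rfl⟩).symm
          simp only [this, c0.2 i e]
          cases f (Quot.mk _ e) <;> cases c0.1 e <;> rfl⟩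
        left_inv := by
          intro c
          apply Subtype.ext
          funext e
          simp
        right_inv := by
          intro f
          funext q
          induction q using Quot.ind
          simp }
    have : Finite (Quot (Step (E := E) σ)) := Quot.finite _
    rw [Nat.card_congr e, Nat.card_fun]
    simp
  · rw [Nat.card_eq_zero]
    left
    exact ⟨fun c => hc (rev_nonempty_compat σ c)⟩

/-- the group elements reversing `c` -/
def Anti (G : Type) [Group G] [MulAction G E] (c : E → Bool) : Type :=
  {g : G // ∀ e, c (g • e) = !c e}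

/-- the stabiliser of a colouring -/
def stab (G : Type) [Group G] [MulAction G E] (c : E → Bool) : Subgroup G where
  carrier := {g | ∀ e, c (g • e) = c e}
  mul_mem' := by
    intro a b ha hb e
    rw [mul_smul, ha, hb]
  one_mem' := by intro e; rw [one_smul]
  inv_mem' := by
    intro a ha e
    have := ha (a⁻¹ • e)
    rw [smul_inv_smul] at this
    exact this.symm

theorem card_anti [Finite G] (c : E → Bool) :
    Nat.card (Anti G c) = 0 ∨ Nat.card (Anti G c) ∈ (Nat.card G).divisors := by
  classical
  by_cases h : Nonempty (Anti G c)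
  · right
    obtain ⟨g0⟩ := h
    have e : Anti G c ≃ stab G c :=
      { toFun := fun g => ⟨g0.1⁻¹ * g.1, by
          intro e
          have h1 := g0.2 (g0.1⁻¹ • g.1 • e)
          rw [smul_inv_smul, g.2] at h1
          rw [mul_smul]
          simpa using h1.symm⟩
        invFun := fun h => ⟨g0.1 * h.1, by
          intro e
          rw [mul_smul, g0.2, h.2 e]⟩
        left_inv := by intro g; apply Subtype.ext; simp
        right_inv := by intro g; apply Subtype.ext; simp }
    rw [Nat.card_congr e, Nat.mem_divisors]
    exact ⟨Subgroup.card_subgroup_dvd_card _, Nat.card_pos.ne'⟩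
  · left
    rw [Nat.card_eq_zero]
    left
    exact not_nonempty_iff.mp h

theorem sum_pow [Fintype E] [DecidableEq E] [Fintype G] (k : ℕ) :
    ∑ c : E → Bool, (Nat.card (Anti G c)) ^ k = ∑ σ : Fin k → G, wt E σ := by
  classical
  have h1 : ∀ c : E → Bool, (Nat.card (Anti G c)) ^ k =
      ∑ σ : Fin k → G, if (∀ i e, c (σ i • e) = !c e) then 1 else 0 := by
    intro c
    have e : (Fin k → Anti G c) ≃ {σ : Fin k → G // ∀ i e, c (σ i • e) = !c e} :=
      { toFun := fun f => ⟨fun i => (f i).1, fun i => (f i).2⟩
        invFun := fun σ i => ⟨σ.1 i, σ.2 i⟩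
        left_inv := fun f => rfl
        right_inv := fun f => rfl }
    have h2 : Nat.card (Fin k → Anti G c) = (Nat.card (Anti G c)) ^ k := by
      rw [Nat.card_fun]; simp
    rw [← h2, Nat.card_congr e, Nat.card_eq_fintype_card, Fintype.card_subtype, Finset.card_filter]
  simp_rw [h1]
  rw [Finset.sum_comm]
  apply Finset.sum_congr rfl
  intro σ _
  rw [← card_rev σ]
  unfold Rev
  rw [Nat.card_eq_fintype_card, Fintype.card_subtype, Finset.card_filter]

/-- the explicit formula (general form) -/
theorem main [Fintype E] [DecidableEq E] [Fintype G] :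
    (Nat.card {c : E → Bool // ∃ g : G, ∀ e, c (g • e) = !c e} : ℚ) =
      ∑ A ∈ (Nat.card G).divisors.powerset.erase ∅,
        ((-1) ^ (A.card + 1) / ∏ d ∈ A, (d : ℚ)) * ∑ σ : Fin A.card → G, (wt E σ : ℚ) := by
  classical
  have h0 : ∀ c : E → Bool, (if (∃ g : G, ∀ e, c (g • e) = !c e) then (1 : ℚ) else 0) =
      ∑ A ∈ (Nat.card G).divisors.powerset.erase ∅,
        ((-1) ^ (A.card + 1) / ∏ d ∈ A, (d : ℚ)) * (Nat.card (Anti G c) : ℚ) ^ A.card := by
    intro c
    set N : ℚ := (Nat.card (Anti G c) : ℚ) with hN
    have hprod : ∏ d ∈ (Nat.card G).divisors, (1 - N / (d : ℚ)) =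
        ∑ A ∈ (Nat.card G).divisors.powerset, ((-1) ^ A.card / ∏ d ∈ A, (d : ℚ)) * N ^ A.card := by
      rw [Finset.prod_sub]
      apply Finset.sum_congr rfl
      intro A _
      rw [Finset.prod_const_one, Finset.prod_div_distrib, Finset.prod_const]
      ring
    have hsum : ∑ A ∈ (Nat.card G).divisors.powerset.erase ∅,
        ((-1) ^ (A.card + 1) / ∏ d ∈ A, (d : ℚ)) * N ^ A.card =
        1 - ∏ d ∈ (Nat.card G).divisors, (1 - N / (d : ℚ)) := by
      rw [hprod, ← Finset.add_sum_erase _ _ (Finset.empty_mem_powerset _)]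
      simp only [Finset.card_empty, pow_zero, Finset.prod_empty, div_one, mul_one]
      rw [sub_add_eq_sub_sub, sub_self, zero_sub, ← Finset.sum_neg_distrib]
      apply Finset.sum_congr rfl
      intro A _
      rw [pow_succ]
      ring
    rw [hsum]
    rcases card_anti (G := G) c with hz | hd
    · have hne : ¬ ∃ g : G, ∀ e, c (g • e) = !c e := by
        rintro ⟨g, hg⟩
        rw [Nat.card_eq_zero] at hz
        rcases hz with hz | hz
        · exact hz.false ⟨g, hg⟩
        · have : Finite (Anti G c) := by unfold Anti; infer_instance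
          exact not_finite (Anti G c)
      have hN0 : N = 0 := by rw [hN, hz]; simp
      rw [if_neg hne, hN0]
      simp
    · have hpos : Nat.card (Anti G c) ≠ 0 := (Nat.pos_of_mem_divisors hd).ne'
      have hex : ∃ g : G, ∀ e, c (g • e) = !c e := by
        have : Nonempty (Anti G c) := by
          by_contra hne
          apply hpos
          rw [Nat.card_eq_zero]
          left
          exact not_nonempty_iff.mp hne
        obtain ⟨g⟩ := this
        exact ⟨g.1, g.2⟩
      rw [if_pos hex, Finset.prod_eq_zero hd]
      · simp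
      · rw [hN, div_self (by exact_mod_cast hpos), sub_self]
  have h1 : (Nat.card {c : E → Bool // ∃ g : G, ∀ e, c (g • e) = !c e} : ℚ) =
      ∑ c : E → Bool, (if (∃ g : G, ∀ e, c (g • e) = !c e) then (1 : ℚ) else 0) := by
    rw [Nat.card_eq_fintype_card, Fintype.card_subtype, Finset.card_filter]
    push_cast
    rfl
  rw [h1]
  simp_rw [h0]
  rw [Finset.sum_comm]
  apply Finset.sum_congr rfl
  intro A _
  rw [← Finset.mul_sum]
  congr 1
  have := sum_pow (E := E) (G := G) A.card
  exact_mod_cast this

end Pool.Agent.H230R2.SC
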